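import Pool.Agent.Helper54.S4.Stmts

/-! Realizability of simplicial polytopes in dimension 4: the six points of a half gate. -/

set_option autoImplicit false

namespace Pool.Agent.Helper54.S4

open Finset Pool.Agent.Helper54.SP
open Filter Topology

theorem loc4_sbt : sb true = 1 := rfl
theorem loc4_sbf : sb false = -1 := rfl

theorem loc4_eps (f g : ℕ → ℕ → ℕ → ℝ)
    (h : ∀ a b c, a < b → b < c → c < 6 → 0 < f a b c ∨ (f a b c = 0 ∧ 0 < g a b c)) :
    ∃ ε : ℝ, 0 < ε ∧ ∀ a b c, a < b → b < c → c < 6 → 0 < f a b c + ε * g a b c := by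
  have key : ∀ᶠ ε in 𝓝[>] (0 : ℝ), ∀ a ∈ Finset.range 6, ∀ b ∈ Finset.range 6,
      ∀ c ∈ Finset.range 6, a < b → b < c → 0 < f a b c + ε * g a b c := by
    refine (Filter.eventually_all_finset _).2 fun a _ => (Filter.eventually_all_finset _).2
      fun b _ => (Filter.eventually_all_finset _).2 fun c hc => ?_
    by_cases hab : a < b
    · by_cases hbc : b < c
      · rcases h a b c hab hbc (Finset.mem_range.1 hc) with h0 | ⟨h0, h1⟩
        · have hcont : Tendsto (fun ε : ℝ => f a b c + ε * g a b c) (𝓝[>] (0 : ℝ))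
              (𝓝 (f a b c + 0 * g a b c)) := by
            have : Continuous (fun ε : ℝ => f a b c + ε * g a b c) := by fun_prop
            exact (this.tendsto 0).mono_left nhdsWithin_le_nhds
          have h0' : 0 < f a b c + 0 * g a b c := by rw [zero_mul, add_zero]; exact h0
          exact (hcont.eventually (lt_mem_nhds h0')).mono fun ε hε _ _ => hε
        · filter_upwards [self_mem_nhdsWithin] with ε hε _ _
          rw [h0, zero_add]
          exact mul_pos hε h1
      · exact Eventually.of_forall fun ε _ h' => absurd h' hbc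
    · exact Eventually.of_forall fun ε h' => absurd h' hab
  obtain ⟨ε, hε, hpos⟩ := (key.and self_mem_nhdsWithin).exists
  refine ⟨ε, hpos, fun a b c hab hbc hc => hε a ?_ b ?_ c ?_ hab hbc⟩ <;>
    · rw [Finset.mem_range]; omega

theorem loc4_big (Δ d : ℕ → ℝ) (hd : ∀ i, i < 5 → 0 < d i) :
    ∃ S : ℝ, ∀ i, i < 5 → 0 < Δ i + S * d i := by
  have key : ∀ᶠ S in (atTop : Filter ℝ), ∀ i ∈ Finset.range 5, 0 < Δ i + S * d i := by
    refine (Filter.eventually_all_finset _).2 fun i hi => ?_
    have hdi := hd i (Finset.mem_range.1 hi)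
    filter_upwards [eventually_gt_atTop (-Δ i / d i)] with S hS
    rw [div_lt_iff₀ hdi] at hS
    linarith
  obtain ⟨S, hS⟩ := key.exists
  exact ⟨S, fun i hi => hS i (Finset.mem_range.2 hi)⟩

theorem loc4_D3_lin (P R y : ℕ → ℝ) (ε : ℝ) (a b c : ℕ) :
    D3 (fun i => P i + ε * R i) y a b c = D3 P y a b c + ε * D3 R y a b c := by
  simp only [D3]; ring

theorem loc4_D3_shift (P y : ℕ → ℝ) (S C : ℝ) (a b c : ℕ) :
    D3 (fun i => P i + S * y i + C) y a b c = D3 P y a b c := by
  simp only [D3]; ring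

/-- the conclusion from lexicographic positivity -/
theorem loc4_fin (t : Bool) (y P R : ℕ → ℝ) (hy : ∀ i, i < 5 → y i < y (i + 1))
    (h : ∀ a b c, a < b → b < c → c < 6 → 0 < sb (tb4 t a b c) * D3 P y a b c ∨
      (sb (tb4 t a b c) * D3 P y a b c = 0 ∧ 0 < sb (tb4 t a b c) * D3 R y a b c)) :
    ∃ ξ : ℕ → ℝ, 0 < ξ 0 ∧ (∀ i, i < 5 → ξ i < ξ (i + 1)) ∧
      ∀ a b c, a < b → b < c → c < 6 → 0 < sb (tb4 t a b c) * D3 ξ y a b c := by
  obtain ⟨ε, _, hε⟩ := loc4_eps (fun a b c => sb (tb4 t a b c) * D3 P y a b c)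
    (fun a b c => sb (tb4 t a b c) * D3 R y a b c) h
  obtain ⟨S, hS⟩ := loc4_big (fun i => (P (i + 1) + ε * R (i + 1)) - (P i + ε * R i))
    (fun i => y (i + 1) - y i) (fun i hi => sub_pos.2 (hy i hi))
  refine ⟨fun i => (P i + ε * R i) + S * y i + (1 - ((P 0 + ε * R 0) + S * y 0)), ?_, ?_, ?_⟩
  · simp
  · intro i hi
    have := hS i hi
    simp only at this ⊢
    nlinarith
  · intro a b c hab hbc hc
    have := hε a b c hab hbc hc
    rw [loc4_D3_shift (fun i => P i + ε * R i) y S _ a b c, loc4_D3_lin]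
    linarith

/-- the two parameters -/
theorem loc4_core (t : Bool) (a b c d e : ℝ) (ha : 0 < a) (hb : 0 < b) (hc : 0 < c) (hd : 0 < d)
    (he : 0 < e)
    (hT : t = true → (a + b) * c * (b + c + d + e) * e < b * (c + d) * (a + b + c + d + e) * (d + e))
    (hF : t = false → b * (c + d) * (a + b + c + d + e) * (d + e) < (a + b) * c * (b + c + d + e) * e) :
    ∃ u w : ℝ, u * (b + c + d + e) = -(b * (d + e)) ∧ u < 0 ∧ w < 0 ∧
      0 < sb (!t) * (w * (a + b + c + d + e) + (a + b) * e) ∧
      0 < sb (!t) * (u * (c + d) - w * c) ∧ w * (b + c + d + e) + b * e < 0 ∧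
      0 < (u + (a + b)) * (a + b + c + d) - (w + (a + b)) * (a + b + c) ∧
      w * (d + e) - u * e < 0 := by
  have hS0 : 0 < a + b + c + d + e := by positivity
  have hS1 : 0 < b + c + d + e := by positivity
  obtain ⟨u, hu⟩ : ∃ u : ℝ, u * (b + c + d + e) = -(b * (d + e)) :=
    ⟨-(b * (d + e)) / (b + c + d + e), div_mul_cancel₀ _ hS1.ne'⟩
  obtain ⟨A, hA⟩ : ∃ A : ℝ, A * (a + b + c + d + e) = -((a + b) * e) :=
    ⟨-((a + b) * e) / (a + b + c + d + e), div_mul_cancel₀ _ hS0.ne'⟩
  obtain ⟨B, hB⟩ : ∃ B : ℝ, B * c = u * (c + d) := ⟨u * (c + d) / c, div_mul_cancel₀ _ hc.ne'⟩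
  have hu0 : u < 0 := by
    have h1 : u * (b + c + d + e) < 0 := by rw [hu]; exact neg_neg_of_pos (by positivity)
    exact neg_of_mul_neg_left h1 hS1.le
  have hA0 : A < 0 := by
    have h1 : A * (a + b + c + d + e) < 0 := by rw [hA]; exact neg_neg_of_pos (by positivity)
    exact neg_of_mul_neg_left h1 hS0.le
  have hB0 : B < 0 := by
    have h1 : B * c < 0 := by rw [hB]; exact mul_neg_of_neg_of_pos hu0 (by positivity)
    exact neg_of_mul_neg_left h1 hc.le
  -- comparison of A and B
  have hAB : (A - B) * (c * (b + c + d + e) * (a + b + c + d + e)) =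
      b * (c + d) * (a + b + c + d + e) * (d + e) - (a + b) * c * (b + c + d + e) * e := by
    linear_combination (c * (b + c + d + e)) * hA - ((b + c + d + e) * (a + b + c + d + e)) * hB -
      ((c + d) * (a + b + c + d + e)) * hu
  have hcp : 0 < c * (b + c + d + e) * (a + b + c + d + e) := by positivity
  have hsgn : 0 < sb (!t) * (B - A) := by
    cases t with
    | true =>
      have h1 := hT rfl
      have h2 : 0 < (A - B) * (c * (b + c + d + e) * (a + b + c + d + e)) := by
        rw [hAB]; linarith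
      have h3 := pos_of_mul_pos_left h2 hcp.le
      simp only [Bool.not_true, loc4_sbf]; linarith
    | false =>
      have h1 := hF rfl
      have h2 : (A - B) * (c * (b + c + d + e) * (a + b + c + d + e)) < 0 := by
        rw [hAB]; linarith
      have h3 := neg_of_mul_neg_left h2 hcp.le
      simp only [Bool.not_false, loc4_sbt]; linarith
  -- condition (1,4,5)
  have h145A : A * (b + c + d + e) + b * e < 0 := by
    have h1 : (A * (b + c + d + e) + b * e) * (a + b + c + d + e) = -(e * a * (c + d + e)) := by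
      linear_combination (b + c + d + e) * hA
    have h2 : (A * (b + c + d + e) + b * e) * (a + b + c + d + e) < 0 := by
      rw [h1]; exact neg_neg_of_pos (by positivity)
    exact neg_of_mul_neg_left h2 hS0.le
  have h145B : B * (b + c + d + e) + b * e < 0 := by
    have h1 : (B * (b + c + d + e) + b * e) * c = -(b * d * (c + d + e)) := by
      linear_combination (b + c + d + e) * hB + (c + d) * hu
    have h2 : (B * (b + c + d + e) + b * e) * c < 0 := by
      rw [h1]; exact neg_neg_of_pos (by positivity)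
    exact neg_of_mul_neg_left h2 hc.le
  -- condition (0,3,4)
  have h034A : 0 < (u + (a + b)) * (a + b + c + d) - (A + (a + b)) * (a + b + c) := by
    have h1 : ((u + (a + b)) * (a + b + c + d) - (A + (a + b)) * (a + b + c)) *
        ((a + b + c + d + e) * (b + c + d + e)) =
        (a + b + c + d) * ((d + e) * a * (c + d + e)) := by
      linear_combination ((a + b + c + d) * (a + b + c + d + e)) * hu -
        ((a + b + c) * (b + c + d + e)) * hA
    have h2 : 0 < ((u + (a + b)) * (a + b + c + d) - (A + (a + b)) * (a + b + c)) *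
        ((a + b + c + d + e) * (b + c + d + e)) := by rw [h1]; positivity
    exact pos_of_mul_pos_left h2 (by positivity)
  have h034B : 0 < (u + (a + b)) * (a + b + c + d) - (B + (a + b)) * (a + b + c) := by
    have h1 : ((u + (a + b)) * (a + b + c + d) - (B + (a + b)) * (a + b + c)) * c =
        (a + b) * d * (c - u) := by
      linear_combination -(a + b + c) * hB
    have h2 : 0 < ((u + (a + b)) * (a + b + c + d) - (B + (a + b)) * (a + b + c)) * c := by
      rw [h1]
      have : 0 < c - u := by linarith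
      positivity
    exact pos_of_mul_pos_left h2 hc.le
  have h145 : (A + B) / 2 * (b + c + d + e) + b * e < 0 := by
    have : (A + B) / 2 * (b + c + d + e) + b * e =
      ((A * (b + c + d + e) + b * e) + (B * (b + c + d + e) + b * e)) / 2 := by ring
    rw [this]; linarith
  refine ⟨u, (A + B) / 2, hu, hu0, by linarith, ?_, ?_, h145, ?_, ?_⟩
  · have h1 : sb (!t) * ((A + B) / 2 * (a + b + c + d + e) + (a + b) * e) =
        (sb (!t) * (B - A)) * ((a + b + c + d + e) / 2) := by
      linear_combination (sb (!t)) * hA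
    rw [h1]; positivity
  · have h1 : sb (!t) * (u * (c + d) - (A + B) / 2 * c) =
        (sb (!t) * (B - A)) * (c / 2) := by
      linear_combination -(sb (!t)) * hB
    rw [h1]; positivity
  · have : (u + (a + b)) * (a + b + c + d) - ((A + B) / 2 + (a + b)) * (a + b + c) =
      (((u + (a + b)) * (a + b + c + d) - (A + (a + b)) * (a + b + c)) +
        ((u + (a + b)) * (a + b + c + d) - (B + (a + b)) * (a + b + c))) / 2 := by ring
    rw [this]; linarith
  · have h1 : ((A + B) / 2 * (d + e) - u * e) * (b + c + d + e) =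
        ((A + B) / 2 * (b + c + d + e) + b * e) * (d + e) := by
      linear_combination (-e) * hu
    have h2 : ((A + B) / 2 * (d + e) - u * e) * (b + c + d + e) < 0 := by
      rw [h1]; exact mul_neg_of_neg_of_pos h145 (by positivity)
    exact neg_of_mul_neg_left h2 hS1.le

theorem loc4_signs (t : Bool) (P R y : ℕ → ℝ)
    (h012 : D3 P y 0 1 2 = 0) (r012 : 0 < sb t * D3 R y 0 1 2)
    (h135 : D3 P y 1 3 5 = 0) (r135 : 0 < sb t * D3 R y 1 3 5)
    (h013 : 0 < D3 P y 0 1 3) (h014 : 0 < D3 P y 0 1 4) (h015 : 0 < D3 P y 0 1 5)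
    (h023 : 0 < D3 P y 0 2 3) (h024 : 0 < D3 P y 0 2 4) (h025 : 0 < D3 P y 0 2 5)
    (h034 : 0 < D3 P y 0 3 4) (h035 : 0 < D3 P y 0 3 5) (h045 : 0 < sb (!t) * D3 P y 0 4 5)
    (h123 : 0 < D3 P y 1 2 3) (h124 : 0 < D3 P y 1 2 4) (h125 : 0 < D3 P y 1 2 5)
    (h134 : 0 < D3 P y 1 3 4) (h145 : D3 P y 1 4 5 < 0) (h234 : 0 < sb (!t) * D3 P y 2 3 4)
    (h235 : D3 P y 2 3 5 < 0) (h245 : D3 P y 2 4 5 < 0) (h345 : D3 P y 3 4 5 < 0) :
    ∀ a b c, a < b → b < c → c < 6 → 0 < sb (tb4 t a b c) * D3 P y a b c ∨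
      (sb (tb4 t a b c) * D3 P y a b c = 0 ∧ 0 < sb (tb4 t a b c) * D3 R y a b c) := by
  intro a b c hab hbc hc
  have hT : ∀ z : ℝ, 0 < z → 0 < sb true * z := fun z hz => by rw [loc4_sbt, one_mul]; exact hz
  have hF : ∀ z : ℝ, z < 0 → 0 < sb false * z := fun z hz => by rw [loc4_sbf]; linarith
  have hZ : ∀ (v : Bool) (z : ℝ), z = 0 → sb v * z = 0 := fun v z hz => by rw [hz, mul_zero]
  interval_cases c <;> interval_cases b <;> interval_cases a
  · rw [show tb4 t 0 1 2 = t by cases t <;> rfl]; exact Or.inr ⟨hZ _ _ h012, r012⟩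
  · rw [show tb4 t 0 1 3 = true by cases t <;> rfl]; exact Or.inl (hT _ h013)
  · rw [show tb4 t 0 2 3 = true by cases t <;> rfl]; exact Or.inl (hT _ h023)
  · rw [show tb4 t 1 2 3 = true by cases t <;> rfl]; exact Or.inl (hT _ h123)
  · rw [show tb4 t 0 1 4 = true by cases t <;> rfl]; exact Or.inl (hT _ h014)
  · rw [show tb4 t 0 2 4 = true by cases t <;> rfl]; exact Or.inl (hT _ h024)
  · rw [show tb4 t 1 2 4 = true by cases t <;> rfl]; exact Or.inl (hT _ h124)
  · rw [show tb4 t 0 3 4 = true by cases t <;> rfl]; exact Or.inl (hT _ h034)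
  · rw [show tb4 t 1 3 4 = true by cases t <;> rfl]; exact Or.inl (hT _ h134)
  · rw [show tb4 t 2 3 4 = !t by cases t <;> rfl]; exact Or.inl h234
  · rw [show tb4 t 0 1 5 = true by cases t <;> rfl]; exact Or.inl (hT _ h015)
  · rw [show tb4 t 0 2 5 = true by cases t <;> rfl]; exact Or.inl (hT _ h025)
  · rw [show tb4 t 1 2 5 = true by cases t <;> rfl]; exact Or.inl (hT _ h125)
  · rw [show tb4 t 0 3 5 = true by cases t <;> rfl]; exact Or.inl (hT _ h035)
  · rw [show tb4 t 1 3 5 = t by cases t <;> rfl]; exact Or.inr ⟨hZ _ _ h135, r135⟩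
  · rw [show tb4 t 2 3 5 = false by cases t <;> rfl]; exact Or.inl (hF _ h235)
  · rw [show tb4 t 0 4 5 = !t by cases t <;> rfl]; exact Or.inl h045
  · rw [show tb4 t 1 4 5 = false by cases t <;> rfl]; exact Or.inl (hF _ h145)
  · rw [show tb4 t 2 4 5 = false by cases t <;> rfl]; exact Or.inl (hF _ h245)
  · rw [show tb4 t 3 4 5 = false by cases t <;> rfl]; exact Or.inl (hF _ h345)

theorem st_LOC4 : ST_LOC4 := by
  intro t y hy hT hF
  obtain ⟨a, ha, h1⟩ : ∃ a, 0 < a ∧ y 1 = y 0 + a := ⟨y 1 - y 0, sub_pos.2 (hy 0 (by norm_num)), by ring⟩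
  obtain ⟨b, hb, h2⟩ : ∃ b, 0 < b ∧ y 2 = y 1 + b := ⟨y 2 - y 1, sub_pos.2 (hy 1 (by norm_num)), by ring⟩
  obtain ⟨c, hc, h3⟩ : ∃ c, 0 < c ∧ y 3 = y 2 + c := ⟨y 3 - y 2, sub_pos.2 (hy 2 (by norm_num)), by ring⟩
  obtain ⟨d, hd, h4⟩ : ∃ d, 0 < d ∧ y 4 = y 3 + d := ⟨y 4 - y 3, sub_pos.2 (hy 3 (by norm_num)), by ring⟩
  obtain ⟨e, he, h5⟩ : ∃ e, 0 < e ∧ y 5 = y 4 + e := ⟨y 5 - y 4, sub_pos.2 (hy 4 (by norm_num)), by ring⟩
  have hFF : FF y = (a + b) * c * (b + c + d + e) * e := by
    simp only [FF]; rw [h5, h4, h3, h2, h1]; ring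
  have hFG : FG y = b * (c + d) * (a + b + c + d + e) * (d + e) := by
    simp only [FG]; rw [h5, h4, h3, h2, h1]; ring
  rw [hFF, hFG] at hT hF
  obtain ⟨u, w, hu, hu0, hw0, h045, h234, h145, h034, h345⟩ := loc4_core t a b c d e ha hb hc hd he hT hF
  have hss : sb t * sb t = 1 := by cases t <;> simp [sb]
  have hcu : 0 < c - u := by linarith
  have hcw : 0 < c + d - w := by linarith
  have hS1 : 0 < b + c + d + e := by positivity
  set P : ℕ → ℝ := fun i => if i = 0 then -(a + b) else if i = 1 then -b else if i = 2 then 0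
    else if i = 3 then u else if i = 4 then w else 0 with hP
  set R : ℕ → ℝ := fun i => if i = 0 then -(a + b) * sb t else if i = 3 then -u * sb t else 0
    with hR
  have P0 : P 0 = -(a + b) := by simp [hP]
  have P1 : P 1 = -b := by simp [hP]
  have P2 : P 2 = 0 := by simp [hP]
  have P3 : P 3 = u := by simp [hP]
  have P4 : P 4 = w := by simp [hP]
  have P5 : P 5 = 0 := by simp [hP]
  have R0 : R 0 = -(a + b) * sb t := by simp [hR]
  have R1 : R 1 = 0 := by simp [hR]
  have R2 : R 2 = 0 := by simp [hR]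
  have R3 : R 3 = -u * sb t := by simp [hR]
  have R5 : R 5 = 0 := by simp [hR]
  clear_value P R
  refine loc4_fin t y P R hy (loc4_signs t P R y ?_ ?_ ?_ ?_ ?_ ?_ ?_ ?_ ?_ ?_ ?_ ?_ ?_ ?_ ?_ ?_
    ?_ ?_ ?_ ?_ ?_ ?_)
  · simp only [D3]; rw [P0, P1, P2, h2, h1]; ring
  · have : sb t * D3 R y 0 1 2 = (sb t * sb t) * ((a + b) * b) := by
      simp only [D3]; rw [R0, R1, R2, h2, h1]; ring
    rw [this, hss]; positivity
  · simp only [D3]; rw [P1, P3, P5, h5, h4, h3, h2, h1]; linear_combination hu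
  · have : sb t * D3 R y 1 3 5 = (sb t * sb t) * (-u * (b + c + d + e)) := by
      simp only [D3]; rw [R1, R3, R5, h5, h4, h3, h2, h1]; ring
    rw [this, hss]; nlinarith
  · have : D3 P y 0 1 3 = a * (c - u) := by
      simp only [D3]; rw [P0, P1, P3, h3, h2, h1]; ring
    rw [this]; positivity
  · have : D3 P y 0 1 4 = a * (c + d - w) := by
      simp only [D3]; rw [P0, P1, P4, h4, h3, h2, h1]; ring
    rw [this]; positivity
  · have : D3 P y 0 1 5 = a * (c + d + e) := by
      simp only [D3]; rw [P0, P1, P5, h5, h4, h3, h2, h1]; ring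
    rw [this]; positivity
  · have : D3 P y 0 2 3 = (a + b) * (c - u) := by
      simp only [D3]; rw [P0, P2, P3, h3, h2, h1]; ring
    rw [this]; positivity
  · have : D3 P y 0 2 4 = (a + b) * (c + d - w) := by
      simp only [D3]; rw [P0, P2, P4, h4, h3, h2, h1]; ring
    rw [this]; positivity
  · have : D3 P y 0 2 5 = (a + b) * (c + d + e) := by
      simp only [D3]; rw [P0, P2, P5, h5, h4, h3, h2, h1]; ring
    rw [this]; positivity
  · have : D3 P y 0 3 4 = (u + (a + b)) * (a + b + c + d) - (w + (a + b)) * (a + b + c) := by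
      simp only [D3]; rw [P0, P3, P4, h4, h3, h2, h1]; ring
    rw [this]; exact h034
  · have : D3 P y 0 3 5 * (b + c + d + e) = (d + e) * a * (c + d + e) := by
      simp only [D3]; rw [P0, P3, P5, h5, h4, h3, h2, h1]
      linear_combination (a + b + c + d + e) * hu
    have h2 : 0 < D3 P y 0 3 5 * (b + c + d + e) := by rw [this]; positivity
    exact pos_of_mul_pos_left h2 hS1.le
  · have : D3 P y 0 4 5 = w * (a + b + c + d + e) + (a + b) * e := by
      simp only [D3]; rw [P0, P4, P5, h5, h4, h3, h2, h1]; ring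
    rw [this]; exact h045
  · have : D3 P y 1 2 3 = b * (c - u) := by
      simp only [D3]; rw [P1, P2, P3, h3, h2, h1]; ring
    rw [this]; positivity
  · have : D3 P y 1 2 4 = b * (c + d - w) := by
      simp only [D3]; rw [P1, P2, P4, h4, h3, h2, h1]; ring
    rw [this]; positivity
  · have : D3 P y 1 2 5 = b * (c + d + e) := by
      simp only [D3]; rw [P1, P2, P5, h5, h4, h3, h2, h1]; ring
    rw [this]; positivity
  · have : D3 P y 1 3 4 * (b + c + d + e) = (b + c) * -(w * (b + c + d + e) + b * e) := by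
      simp only [D3]; rw [P1, P3, P4, h4, h3, h2, h1]
      linear_combination (b + c + d) * hu
    have h2 : 0 < D3 P y 1 3 4 * (b + c + d + e) := by
      rw [this]; exact mul_pos (by positivity) (neg_pos.2 h145)
    exact pos_of_mul_pos_left h2 hS1.le
  · have : D3 P y 1 4 5 = w * (b + c + d + e) + b * e := by
      simp only [D3]; rw [P1, P4, P5, h5, h4, h3, h2, h1]; ring
    rw [this]; exact h145
  · have : D3 P y 2 3 4 = u * (c + d) - w * c := by
      simp only [D3]; rw [P2, P3, P4, h4, h3, h2, h1]; ring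
    rw [this]; exact h234
  · have : D3 P y 2 3 5 = u * (c + d + e) := by
      simp only [D3]; rw [P2, P3, P5, h5, h4, h3, h2, h1]; ring
    rw [this]; exact mul_neg_of_neg_of_pos hu0 (by positivity)
  · have : D3 P y 2 4 5 = w * (c + d + e) := by
      simp only [D3]; rw [P2, P4, P5, h5, h4, h3, h2, h1]; ring
    rw [this]; exact mul_neg_of_neg_of_pos hw0 (by positivity)
  · have : D3 P y 3 4 5 = w * (d + e) - u * e := by
      simp only [D3]; rw [P3, P4, P5, h5, h4, h3, h2, h1]; ring
    rw [this]; exact h345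

end Pool.Agent.Helper54.S4
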